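import Pool.Agent.W402.HI.Final

/-!
Ellipticity: the operators `κ - (μ - T) Y`, `κ ≠ 0`, `Y` commuting with `T`. Their products are again of
this form and do not vanish if `μ` is in the spectrum.
-/

set_option autoImplicit false

open Filter Topology MeasureTheory Metric

namespace Pool.Agent.V11321.HN

open Pool.Agent.W402.HI Pool.Agent.W816.HI

section alg

variable {A : Type} [NormedRing A] [NormedAlgebra ℂ A] [CompleteSpace A]

/-- `B = κ - (μ - T) Y`, `κ ≠ 0`, `Y` commutes with `T` -/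
def Ell (T : A) (μ : ℂ) (B : A) : Prop :=
  ∃ κ : ℂ, κ ≠ 0 ∧ ∃ Y : A, T * Y = Y * T ∧ B = κ • (1 : A) - (algebraMap ℂ A μ - T) * Y

omit [CompleteSpace A] in
theorem Ell.mul {T : A} {μ : ℂ} {B B' : A} (h : Ell T μ B) (h' : Ell T μ B') :
    Ell T μ (B * B') := by
  obtain ⟨κ, hκ, Y, hY, rfl⟩ := h
  obtain ⟨κ', hκ', Y', hY', rfl⟩ := h'
  have hc : T * algebraMap ℂ A μ = algebraMap ℂ A μ * T := (Algebra.commutes μ T).symm
  refine ⟨κ * κ', mul_ne_zero hκ hκ', κ • Y' + κ' • Y - Y * (algebraMap ℂ A μ - T) * Y', ?_, ?_⟩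
  · rw [mul_sub, sub_mul, mul_add, add_mul, mul_smul_comm, mul_smul_comm, smul_mul_assoc,
      smul_mul_assoc, hY, hY']
    congr 1
    have e1 : T * (algebraMap ℂ A μ - T) = (algebraMap ℂ A μ - T) * T := by
      rw [mul_sub, sub_mul, hc]
    calc T * (Y * (algebraMap ℂ A μ - T) * Y') = (T * Y) * (algebraMap ℂ A μ - T) * Y' := by
          noncomm_ring
      _ = Y * (T * (algebraMap ℂ A μ - T)) * Y' := by rw [hY]; noncomm_ring
      _ = Y * (algebraMap ℂ A μ - T) * (T * Y') := by rw [e1]; noncomm_ring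
      _ = Y * (algebraMap ℂ A μ - T) * Y' * T := by rw [hY']; noncomm_ring
  · generalize algebraMap ℂ A μ - T = D
    simp only [sub_mul, mul_sub, mul_add, smul_mul_assoc, mul_smul_comm, one_mul, mul_one,
      smul_smul, smul_sub, mul_assoc]
    rw [mul_comm κ' κ]
    abel

omit [CompleteSpace A] in
theorem Ell.ne {T : A} {μ : ℂ} {B : A} (h : Ell T μ B) (hμ : μ ∈ spectrum ℂ T) : B ≠ 0 := by
  obtain ⟨κ, hκ, Y, hY, rfl⟩ := h
  intro h0
  have e2 : (algebraMap ℂ A μ - T) * Y = κ • (1 : A) := (sub_eq_zero.1 h0).symm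
  have e3 : Y * (algebraMap ℂ A μ - T) = κ • (1 : A) := by
    rw [← e2, mul_sub, sub_mul, hY, Algebra.commutes]
  apply hμ
  refine ⟨⟨algebraMap ℂ A μ - T, κ⁻¹ • Y, ?_, ?_⟩, rfl⟩
  · rw [mul_smul_comm, e2, smul_smul, inv_mul_cancel₀ hκ, one_smul]
  · rw [smul_mul_assoc, e3, smul_smul, inv_mul_cancel₀ hκ, one_smul]

/-- the integral is elliptic where `F` is holomorphic and does not vanish -/
theorem ell (h3 : P_A3) {T : A} {F : ℂ → ℂ} {c : ℝ} (h : Dat T F c) {μ : ℂ}
    (hFμ : F μ ≠ 0) (hev : ∀ᶠ z in 𝓝 μ, D F z = 0) : Ell T μ (∫ z, Gf T F z) := by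
  have hκ := h3 F h.tst μ hFμ hev
  obtain ⟨r, hr, hball⟩ := Metric.eventually_nhds_iff_ball.1 hev
  obtain ⟨B, hB0, hB⟩ := Gf_bound h
  have hinv : Measurable fun z : ℂ => (z - μ)⁻¹ := (measurable_id.sub_const μ).inv
  have hfar : ∀ z, D F z ≠ 0 → ‖(z - μ)⁻¹‖ ≤ r⁻¹ := by
    intro z hz
    rw [norm_inv]
    apply inv_anti₀ hr
    by_contra hc
    push Not at hc
    exact hz (hball z (by rw [mem_ball, dist_eq_norm]; exact hc))
  have i1 : Integrable (fun z => (z - μ)⁻¹ • Gf T F z) := by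
    refine integrable_bdd (C := r⁻¹ * B) (hinv.aestronglyMeasurable.smul (meas_Gf h.res)) ?_ ?_
    · intro z
      by_cases hz : D F z = 0
      · rw [Gf_zero hz, smul_zero, norm_zero]; positivity
      · exact (norm_smul_le _ _).trans (mul_le_mul (hfar z hz) (hB z).2 (norm_nonneg _)
          (by positivity))
    · exact HasCompactSupport.intro h.tst.supp (fun z hz => by
        rw [Gf_zero (D_zero_off hz), smul_zero])
  have i2 : Integrable (fun z => D F z / (z - μ)) := by
    refine integrable_bdd (C := B * r⁻¹)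
      ((meas_D F).div (measurable_id.sub_const μ)).aestronglyMeasurable ?_ ?_
    · intro z
      rw [div_eq_mul_inv]
      by_cases hz : D F z = 0
      · rw [hz, zero_mul, norm_zero]; positivity
      · exact (norm_mul_le _ _).trans (mul_le_mul (hB z).1 (hfar z hz) (norm_nonneg _) hB0)
    · exact HasCompactSupport.intro h.tst.supp (fun z hz => by
        rw [D_zero_off hz, zero_div])
  obtain ⟨Y, hY⟩ : ∃ Y : A, Y = ∫ z, (z - μ)⁻¹ • Gf T F z := ⟨_, rfl⟩
  obtain ⟨κ, hκd⟩ : ∃ κ : ℂ, κ = ∫ z, D F z / (z - μ) := ⟨_, rfl⟩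
  rw [← hκd] at hκ
  have e1 : ∀ z, (algebraMap ℂ A μ - T) * ((z - μ)⁻¹ • Gf T F z) =
      (D F z / (z - μ)) • (1 : A) - Gf T F z := by
    intro z
    by_cases hz : D F z = 0
    · rw [Gf_zero hz, hz]; simp
    · have hzμ : z - μ ≠ 0 := by
        intro h
        apply hz
        rw [sub_eq_zero.1 h]
        exact hball μ (mem_ball_self hr)
      have hres := res_mul (h.res z hz)
      unfold Gf
      rw [mul_smul_comm, mul_smul_comm]
      have e2 : (algebraMap ℂ A μ - T) * resolvent T z = 1 - (z - μ) • resolvent T z := by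
        have : algebraMap ℂ A μ - T = (algebraMap ℂ A z - T) - (z - μ) • (1 : A) := by
          rw [sub_smul, ← Algebra.algebraMap_eq_smul_one, ← Algebra.algebraMap_eq_smul_one]
          abel
        rw [this, sub_mul, hres, smul_mul_assoc, one_mul]
      rw [e2, smul_sub, smul_sub, smul_smul, smul_smul, smul_smul]
      congr 2
      · field_simp
      · field_simp
  have e2 : (algebraMap ℂ A μ - T) * Y = κ • (1 : A) - ∫ z, Gf T F z := by
    rw [hY, hκd, ← integral_const_mul_of_integrable i1]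
    simp_rw [e1]
    rw [integral_sub (i2.smul_const _) (int_Gf h), integral_smul_const]
  have hTY : T * Y = Y * T := by
    rw [hY, ← integral_const_mul_of_integrable i1, ← integral_mul_const_of_integrable i1]
    congr 1
    funext z
    rw [mul_smul_comm, smul_mul_assoc, Gf_comm (rfl : T * T = T * T)]
  exact ⟨κ, hκ, Y, hTY, by rw [e2]; abel⟩

end alg

end Pool.Agent.V11321.HN
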