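import Pool.Agent.V11321.HN.Nest

/-!
Infinite chains of hyperinvariant subspaces.
-/

set_option autoImplicit false

open Filter Topology MeasureTheory Metric

namespace Pool.Agent.V11321.HN

open Pool.Agent.W402.HI Pool.Agent.W816.HI

variable {X : Type} [NormedAddCommGroup X] [NormedSpace ℂ X]

/-- closed and hyperinvariant -/
def Hyp (T : X →L[ℂ] X) (V : Submodule ℂ X) : Prop :=
  IsClosed (V : Set X) ∧ ∀ Q : X →L[ℂ] X, Q * T = T * Q → ∀ x ∈ V, Q x ∈ V

/-- an infinite chain of closed hyperinvariant subspaces -/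
def InfChain (T : X →L[ℂ] X) : Prop := ∃ V : ℕ → Submodule ℂ X,
  (∀ n, Hyp T (V n)) ∧ (StrictMono V ∨ StrictAnti V)

theorem chain_of_nest {T : X →L[ℂ] X} {a : ℝ} (h : Nest T a)
    (hinf : {r : ℝ | a < r ∧ ∃ μ ∈ spectrum ℂ T, r = μ.re}.Infinite) : InfChain T := by
  obtain ⟨V, hV, hmono, hne, -, -⟩ := h
  have : Infinite {r : ℝ | a < r ∧ ∃ μ ∈ spectrum ℂ T, r = μ.re} := hinf.to_subtype
  obtain ⟨f, hf⟩ := Infinite.exists_strictMono_or_strictAnti (α := {r : ℝ | a < r ∧ ∃ μ ∈ spectrum ℂ T, r = μ.re})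
  have hpos : ∀ n, a < (f n : ℝ) := fun n => (f n).2.1
  have hsp : ∀ n, ∃ μ ∈ spectrum ℂ T, (f n : ℝ) = μ.re := fun n => (f n).2.2
  refine ⟨fun n => V (((f n : ℝ) + f (n + 1)) / 2), fun n => hV _, ?_⟩
  rcases hf with hf | hf
  · left
    refine strictMono_nat_of_lt_succ fun n => ?_
    have h1 : (f n : ℝ) < f (n + 1) := hf (Nat.lt_succ_self n)
    have h2 : (f (n + 1) : ℝ) < f (n + 1 + 1) := hf (Nat.lt_succ_self _)
    obtain ⟨μ, hμ, hμ2⟩ := hsp (n + 1)
    have h3 := hpos n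
    refine lt_of_le_of_ne (hmono _ _ (by linarith)) (hne _ _ (by linarith) μ hμ ?_ ?_)
    · rw [← hμ2]; linarith
    · rw [← hμ2]; linarith
  · right
    refine strictAnti_nat_of_succ_lt fun n => ?_
    have h1 : (f (n + 1) : ℝ) < f n := hf (Nat.lt_succ_self n)
    have h2 : (f (n + 1 + 1) : ℝ) < f (n + 1) := hf (Nat.lt_succ_self _)
    obtain ⟨μ, hμ, hμ2⟩ := hsp (n + 1)
    have h3 := hpos (n + 1)
    have h4 := hpos (n + 1 + 1)
    refine lt_of_le_of_ne (hmono _ _ (by linarith)) (hne _ _ (by linarith) μ hμ ?_ ?_)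
    · rw [← hμ2]; linarith
    · rw [← hμ2]; linarith

theorem comm_mob {T : X →L[ℂ] X} {e p' : ℂ} (hp : p' ∈ resolventSet ℂ T) (Q : X →L[ℂ] X)
    (hQ : Q * T = T * Q) :
    Q * ((-e) • resolvent T p') = ((-e) • resolvent T p') * Q := by
  obtain ⟨h1, h2⟩ := Pool.Agent.W287.HI.H2.resolvent_mul hp
  have h3 : Q * (p' • (1 : X →L[ℂ] X) - T) = (p' • (1 : X →L[ℂ] X) - T) * Q := by
    rw [mul_sub, sub_mul, hQ, mul_smul_comm, smul_mul_assoc, mul_one, one_mul]
  have h4 : Q * resolvent T p' = resolvent T p' * Q := by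
    calc Q * resolvent T p'
        = (resolvent T p' * (p' • (1 : X →L[ℂ] X) - T)) * Q * resolvent T p' := by
          rw [h1, one_mul]
      _ = resolvent T p' * (Q * (p' • (1 : X →L[ℂ] X) - T)) * resolvent T p' := by
          rw [h3]; noncomm_ring
      _ = resolvent T p' * Q * ((p' • (1 : X →L[ℂ] X) - T) * resolvent T p') := by
          noncomm_ring
      _ = resolvent T p' * Q := by rw [h2, mul_one]
  rw [mul_smul_comm, smul_mul_assoc, h4]

theorem chain_mob {T : X →L[ℂ] X} {e p' : ℂ} (hp : p' ∈ resolventSet ℂ T)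
    (h : InfChain ((-e) • resolvent T p')) : InfChain T := by
  obtain ⟨V, hV, hs⟩ := h
  exact ⟨V, fun n => ⟨(hV n).1, fun Q hQ x hx => (hV n).2 Q (comm_mob hp Q hQ) x hx⟩, hs⟩

/-- a direction in which the real parts do not coincide -/
theorem direction (e₀ : ℂ) (he₀ : ‖e₀‖ = 1) (w : ℕ → ℂ) (hw : ∀ n, w n ≠ 0) :
    ∃ e : ℂ, ‖e‖ = 1 ∧ (∀ n, (e * w n).re ≠ 0) ∧ ∀ v : ℝ, 0 < v →
      v / 2 < (e * (starRingEnd ℂ e₀ * v)).re := by
  have he0 : e₀ ≠ 0 := by
    intro h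
    rw [h, norm_zero] at he₀
    exact zero_ne_one he₀
  have hcount : (⋃ n, {t : ℝ | (e₀ * (1 + t * Complex.I) * w n).re = 0}).Countable := by
    refine Set.countable_iUnion fun n => Set.Subsingleton.countable ?_
    intro t ht s hs
    simp only [Set.mem_setOf_eq] at ht hs
    obtain ⟨u, hu⟩ : ∃ u : ℂ, u = e₀ * w n := ⟨_, rfl⟩
    have hu0 : u ≠ 0 := by rw [hu]; exact mul_ne_zero he0 (hw n)
    have e1 : ∀ r : ℝ, (e₀ * (1 + r * Complex.I) * w n).re = u.re - r * u.im := by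
      intro r
      have : e₀ * (1 + r * Complex.I) * w n = u * (1 + r * Complex.I) := by rw [hu]; ring
      rw [this]
      simp [Complex.mul_re]
      ring
    rw [e1] at ht hs
    by_cases him : u.im = 0
    · rw [him] at ht
      exact absurd (Complex.ext (by simpa using ht) (by simpa using him)) hu0
    · have : t * u.im = s * u.im := by linarith
      exact mul_right_cancel₀ him this
  obtain ⟨t, ht1, ht2⟩ := (hcount.dense_compl ℝ).exists_mem_open isOpen_Ioo
    (⟨1 / 2, by norm_num, by norm_num⟩ : (Set.Ioo (0:ℝ) 1).Nonempty)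
  obtain ⟨m, hm⟩ : ∃ m : ℝ, m = ‖(1 : ℂ) + t * Complex.I‖ := ⟨_, rfl⟩
  have hm2 : m ^ 2 = 1 + t ^ 2 := by
    rw [hm, ← Complex.normSq_eq_norm_sq, Complex.normSq_apply]
    simp
    ring
  have hm0 : 0 < m := by
    have h1 : 0 ≤ m := by rw [hm]; exact norm_nonneg _
    rcases h1.lt_or_eq with h | h
    · exact h
    · rw [← h] at hm2
      nlinarith [sq_nonneg t]
  have hmc : (m : ℂ) ≠ 0 := by exact_mod_cast hm0.ne'
  refine ⟨e₀ * (1 + t * Complex.I) / m, ?_, fun n => ?_, fun v hv => ?_⟩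
  · rw [norm_div, norm_mul, he₀, one_mul, ← hm, Complex.norm_real, Real.norm_of_nonneg hm0.le,
      div_self hm0.ne']
  · intro h0
    apply ht1
    rw [Set.mem_iUnion]
    refine ⟨n, ?_⟩
    have e1 : e₀ * (1 + t * Complex.I) / m * w n = ((m⁻¹ : ℝ) : ℂ) * (e₀ * (1 + t * Complex.I) * w n) := by
      push_cast
      field_simp
    rw [e1, Complex.re_ofReal_mul] at h0
    exact (mul_eq_zero.1 h0).resolve_left (inv_ne_zero hm0.ne')
  · have e1 : e₀ * (1 + t * Complex.I) / m * (starRingEnd ℂ e₀ * v) =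
        ((v / m : ℝ) : ℂ) * (1 + t * Complex.I) := by
      have e2 : e₀ * starRingEnd ℂ e₀ = 1 := by
        rw [Complex.mul_conj, Complex.normSq_eq_norm_sq, he₀]
        norm_num
      calc e₀ * (1 + t * Complex.I) / m * (starRingEnd ℂ e₀ * v) =
          (e₀ * starRingEnd ℂ e₀) * (v / m * (1 + t * Complex.I)) := by ring
        _ = ((v / m : ℝ) : ℂ) * (1 + t * Complex.I) := by rw [e2]; push_cast; ring
    rw [e1, Complex.re_ofReal_mul]
    have e3 : ((1 : ℂ) + t * Complex.I).re = 1 := by simp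
    rw [e3, mul_one]
    have h3 : m < 2 := by nlinarith [ht2.1, ht2.2]
    exact div_lt_div_of_pos_left hv hm0 h3

end Pool.Agent.V11321.HN
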