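import Pool.Agent.V11321.HN.Chain

/-!
Infinite chains, local version (Moebius transformation).
-/

set_option autoImplicit false

open Filter Topology MeasureTheory Metric

namespace Pool.Agent.V11321.HN

open Pool.Agent.W402.HI Pool.Agent.W816.HI Pool.Agent.W287.HI.H2

variable {X : Type} [NormedAddCommGroup X] [NormedSpace ℂ X] [CompleteSpace X]

theorem chain_local (T : X →L[ℂ] X) (γ : ℝ → ℂ) (K : NNReal) (hγ : LipschitzWith K γ) (U : Set ℂ)
    (hU : IsOpen U) (hspec : ∀ z ∈ spectrum ℂ T, z ∈ U → z ∈ γ '' Set.Icc 0 1) (p : ℂ)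
    (hpU : p ∈ U) (hacc : ∃ᶠ z in 𝓝[≠] p, z ∈ spectrum ℂ T)
    (hgr : ∃ A : ℕ, ∀ w ∈ γ '' Set.Icc 0 1, w ∈ U → ∀ d : ℂ, ‖d‖ = 1 →
      TangentAt (γ '' Set.Icc 0 1) w d → ConeGrowth (fun z => ‖resolvent T z‖) w d A) :
    InfChain T := by
  have hB := Final.hB
  have hp : p ∈ spectrum ℂ T := by
    have h1 : p ∈ closure (spectrum ℂ T) := by
      rw [mem_closure_iff_frequently]
      exact hacc.filter_mono nhdsWithin_le_nhds
    rwa [(spectrum.isClosed T).closure_eq] at h1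
  obtain ⟨z, hz, hzσ⟩ := exists_seq_forall_of_frequently hacc
  obtain ⟨hz1, hz2⟩ := tendsto_nhdsWithin_iff.1 hz
  obtain ⟨A, hgrA⟩ := hgr
  obtain ⟨ρ, hρ0, hball⟩ := Metric.isOpen_iff.1 hU p hpU
  have hballU : ∀ z : ℂ, ‖z - p‖ < ρ → z ∈ U := fun z hz => hball (by
    rw [Metric.mem_ball, dist_eq_norm]
    exact hz)
  obtain ⟨p', hp'p, hp'Γ⟩ := off_curve hB γ K hγ p (ρ / 4) (by positivity)
  have hp'U : p' ∈ U := hballU p' (by linarith)
  have hp'r : p' ∈ resolventSet ℂ T := by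
    by_contra h
    exact hp'Γ (hspec p' h hp'U)
  have hpΓ : p ∈ γ '' Set.Icc 0 1 := hspec p hp hpU
  have hpp' : p ≠ p' := fun h => hp'Γ (h ▸ hpΓ)
  have hpp0 : p - p' ≠ 0 := sub_ne_zero.2 hpp'
  have hppn : 0 < ‖p - p'‖ := norm_pos_iff.2 hpp0
  have hppn' : ‖p - p'‖ < ρ / 4 := by rw [norm_sub_rev]; exact hp'p
  have hzp' : ∀ n, z n ≠ p' := by
    intro n h
    have := hzσ n
    rw [h] at this
    exact this hp'r
  -- a tail of the sequence off `p`
  obtain ⟨n₀, hn₀⟩ := Filter.eventually_atTop.1 hz2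
  obtain ⟨w, hw⟩ : ∃ w : ℕ → ℂ, w = fun n => 1 / (z (n + n₀) - p') - 1 / (p - p') := ⟨_, rfl⟩
  have hw0 : ∀ n, w n ≠ 0 := by
    intro n h
    rw [hw] at h
    simp only at h
    have h1 : z (n + n₀) - p' ≠ 0 := sub_ne_zero.2 (hzp' _)
    have h2 : p - p' = z (n + n₀) - p' := by
      have h3 := sub_eq_zero.1 h
      rw [div_eq_div_iff h1 hpp0, one_mul, one_mul] at h3
      exact h3
    exact hn₀ (n + n₀) (by omega) (sub_left_injective h2).symm
  obtain ⟨e₀, he₀⟩ : ∃ e₀ : ℂ, e₀ = (p - p') / (‖p - p'‖ : ℂ) := ⟨_, rfl⟩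
  have hpc : (‖p - p'‖ : ℂ) ≠ 0 := by exact_mod_cast hppn.ne'
  have he₀n : ‖e₀‖ = 1 := by
    rw [he₀, norm_div, Complex.norm_real, norm_norm, div_self hppn.ne']
  obtain ⟨e, hen, hew, hev⟩ := direction e₀ he₀n w hw0
  have he0 : e ≠ 0 := by
    intro h0
    rw [h0, norm_zero] at hen
    exact zero_ne_one hen
  have hlim : 2 / ρ < (e / (p - p')).re := by
    have h1 := hev (1 / ‖p - p'‖) (by positivity)
    have h2 : starRingEnd ℂ e₀ * ((1 / ‖p - p'‖ : ℝ) : ℂ) = 1 / (p - p') := by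
      rw [he₀, map_div₀, Complex.conj_ofReal]
      push_cast
      have h3 : (p - p') * starRingEnd ℂ (p - p') = (‖p - p'‖ : ℂ) * (‖p - p'‖ : ℂ) := by
        rw [Complex.mul_conj, Complex.normSq_eq_norm_sq]
        push_cast
        ring
      field_simp
      linear_combination h3
    rw [h2] at h1
    have h4 : e * (1 / (p - p')) = e / (p - p') := by ring
    rw [h4] at h1
    refine lt_trans ?_ h1
    rw [div_div, div_lt_div_iff₀ hρ0 (by positivity)]
    linarith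
  -- the transformed curve
  have hcompΓ : IsCompact (γ '' Set.Icc 0 1) := isCompact_Icc.image hγ.continuous
  have hne : (γ '' Set.Icc (0 : ℝ) 1).Nonempty := ⟨p, hpΓ⟩
  obtain ⟨η, hη0, hη⟩ : ∃ η : ℝ, 0 < η ∧ ∀ z ∈ γ '' Set.Icc (0 : ℝ) 1, η ≤ ‖z - p'‖ := by
    refine ⟨infDist p' (γ '' Set.Icc 0 1), ?_, ?_⟩
    · exact (hcompΓ.isClosed.notMem_iff_infDist_pos hne).1 hp'Γ
    · intro z hz
      have := infDist_le_dist_of_mem (x := p') hz
      rwa [dist_comm, dist_eq_norm] at this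
  obtain ⟨γ', hγ'⟩ : ∃ γ' : ℝ → ℂ,
      γ' = fun t => e / (γ (Set.projIcc (0 : ℝ) 1 zero_le_one t) - p') := ⟨_, rfl⟩
  have hproj : ∀ t : ℝ, γ (Set.projIcc (0 : ℝ) 1 zero_le_one t) ∈ γ '' Set.Icc (0 : ℝ) 1 :=
    fun t => ⟨_, (Set.projIcc (0 : ℝ) 1 zero_le_one t).2, rfl⟩
  have hL : LipschitzWith (K * (Real.toNNReal (1 / η ^ 2))) γ' := by
    refine LipschitzWith.of_dist_le_mul fun s t => ?_
    rw [hγ']
    show dist (e / (γ (Set.projIcc (0 : ℝ) 1 zero_le_one s) - p'))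
      (e / (γ (Set.projIcc (0 : ℝ) 1 zero_le_one t) - p')) ≤ _
    have hs := hproj s
    have ht := hproj t
    have a1 := hη _ hs
    have a2 := hη _ ht
    have a3 : dist (γ (Set.projIcc (0 : ℝ) 1 zero_le_one s))
        (γ (Set.projIcc (0 : ℝ) 1 zero_le_one t)) ≤ K * dist s t := by
      refine (hγ.dist_le_mul _ _).trans ?_
      refine mul_le_mul_of_nonneg_left ?_ K.2
      have := (LipschitzWith.projIcc (a := (0 : ℝ)) (b := 1) zero_le_one).dist_le_mul s t
      rwa [NNReal.coe_one, one_mul] at this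
    generalize γ (Set.projIcc (0 : ℝ) 1 zero_le_one s) = u at *
    generalize γ (Set.projIcc (0 : ℝ) 1 zero_le_one t) = v at *
    have b1 : 0 < ‖u - p'‖ := lt_of_lt_of_le hη0 a1
    have b2 : 0 < ‖v - p'‖ := lt_of_lt_of_le hη0 a2
    have b3 : u - p' ≠ 0 := norm_pos_iff.1 b1
    have b4 : v - p' ≠ 0 := norm_pos_iff.1 b2
    rw [NNReal.coe_mul, Real.coe_toNNReal _ (by positivity)]
    rw [dist_eq_norm]
    have b5 : e / (u - p') - e / (v - p') = -(e * (u - v)) / ((u - p') * (v - p')) := by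
      field_simp
      ring
    rw [b5, norm_div, norm_neg, norm_mul, norm_mul, hen, one_mul, ← dist_eq_norm]
    have b6 : η ^ 2 ≤ ‖u - p'‖ * ‖v - p'‖ := by
      rw [sq]
      exact mul_le_mul a1 a2 hη0.le b1.le
    calc dist u v / (‖u - p'‖ * ‖v - p'‖) ≤ dist u v / η ^ 2 :=
          div_le_div_of_nonneg_left dist_nonneg (by positivity) b6
      _ ≤ K * dist s t / η ^ 2 := div_le_div_of_nonneg_right a3 (by positivity)
      _ = K * (1 / η ^ 2) * dist s t := by ring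
  have himg : γ' '' Set.Icc 0 1 = (fun z => e / (z - p')) '' (γ '' Set.Icc 0 1) := by
    rw [Set.image_image]
    refine Set.image_congr fun t ht => ?_
    rw [hγ']
    simp only
    rw [Set.projIcc_of_mem zero_le_one ht]
  -- apply the nest theorem
  refine chain_mob (e := e) hp'r (chain_of_nest (a := 2 / ρ)
    (nest ((-e) • resolvent T p') γ' _ hL (2 / ρ) ?_ ⟨A, ?_⟩) ?_)
  · intro ζ hζ hare
    rw [himg]
    have hζ0 : ζ ≠ 0 := by
      rintro rfl
      exact hζ (zero_mob he0 hp'r)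
    have hζn : 0 < ‖ζ‖ := norm_pos_iff.2 hζ0
    have h2 : e / (p' + e / ζ - p') = ζ := by
      rw [add_sub_cancel_left]
      field_simp
    have h3 : p' + e / ζ ≠ p' := by
      intro h
      rw [add_eq_left] at h
      exact div_ne_zero he0 hζ0 h
    have h4 : p' + e / ζ ∈ spectrum ℂ T := by
      intro hz
      apply hζ
      have := (res_mob hen hp'r hz h3).1
      rwa [h2] at this
    have h5 : ‖e / ζ‖ < ρ / 2 := by
      rw [norm_div, hen, div_lt_iff₀ hζn]
      have h6 : 2 / ρ < ‖ζ‖ := hare.trans_le (Complex.re_le_norm ζ)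
      calc (1 : ℝ) = ρ / 2 * (2 / ρ) := by field_simp
        _ < ρ / 2 * ‖ζ‖ := mul_lt_mul_of_pos_left h6 (by positivity)
    have h6 : p' + e / ζ ∈ U := by
      apply hballU
      have : p' + e / ζ - p = (p' - p) + e / ζ := by ring
      rw [this]
      refine (norm_add_le _ _).trans_lt ?_
      linarith
    exact ⟨_, hspec _ h4 h6, h2⟩
  · intro w' hw' hare d' hd' htan
    rw [himg] at hw' htan
    obtain ⟨w, hwΓ, rfl⟩ := hw'
    have hwp : w ≠ p' := fun h => hp'Γ (h ▸ hwΓ)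
    have hwpn : 0 < ‖w - p'‖ := norm_pos_iff.2 (sub_ne_zero.2 hwp)
    have hw0 : e / (w - p') ≠ 0 := div_ne_zero he0 (sub_ne_zero.2 hwp)
    have h2 := tangent_mob hen hd' hwp hp'Γ htan
    have h3 : ‖w - p'‖ < ρ / 2 := by
      have h4 : 2 / ρ < ‖e / (w - p')‖ := hare.trans_le (Complex.re_le_norm _)
      rw [norm_div, hen, div_lt_div_iff₀ hρ0 hwpn] at h4
      linarith
    have hwU : w ∈ U := by
      apply hballU
      have : w - p = (w - p') + (p' - p) := by ring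
      rw [this]
      refine (norm_add_le _ _).trans_lt ?_
      linarith
    have h4 := hgrA w hwΓ hwU _ (norm_d hen hw0 hd') h2
    exact growth_mob (N := fun z => ‖resolvent T z‖) hen hd' hwp
      (fun ζ hζ => growth_fun hen hp'r ζ hζ) h4
  · -- infinitely many real parts
    intro hfin
    obtain ⟨r₀, hr₀⟩ : ∃ r₀ : ℝ, r₀ = (e / (p - p')).re := ⟨_, rfl⟩
    have hlimr : Tendsto (fun n => (e / (z (n + n₀) - p')).re) atTop (𝓝 r₀) := by
      have h1 : Tendsto (fun n => z (n + n₀)) atTop (𝓝 p) := hz1.comp (tendsto_add_atTop_nat n₀)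
      have h2 : Tendsto (fun n => e / (z (n + n₀) - p')) atTop (𝓝 (e / (p - p'))) :=
        tendsto_const_nhds.div (h1.sub_const p') hpp0
      rw [hr₀]
      exact (Complex.continuous_re.tendsto _).comp h2
    have h1 : ∀ᶠ n in atTop, 2 / ρ < (e / (z (n + n₀) - p')).re :=
      (tendsto_order.1 hlimr).1 _ (by rw [hr₀]; exact hlim)
    have h2 : ∀ n, (e / (z (n + n₀) - p')).re ≠ r₀ := by
      intro n h
      apply hew n
      rw [hw]
      simp only
      have h3 : e * (1 / (z (n + n₀) - p') - 1 / (p - p')) = e / (z (n + n₀) - p') - e / (p - p') := by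
        ring
      rw [h3, Complex.sub_re, h, hr₀, sub_self]
    have h3 : IsClosed ({r : ℝ | 2 / ρ < r ∧ ∃ μ ∈ spectrum ℂ ((-e) • resolvent T p'), r = μ.re} \
        {r₀}) := (hfin.subset Set.sdiff_subset).isClosed
    have h4 : ∀ᶠ n in atTop, (e / (z (n + n₀) - p')).re ∉
        ({r : ℝ | 2 / ρ < r ∧ ∃ μ ∈ spectrum ℂ ((-e) • resolvent T p'), r = μ.re} \ {r₀}) :=
      hlimr.eventually (h3.isOpen_compl.mem_nhds (by simp))
    obtain ⟨n, hn1, hn2⟩ := (h1.and h4).exists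
    apply hn2
    refine ⟨⟨hn1, e / (z (n + n₀) - p'), ?_, rfl⟩, h2 n⟩
    intro h
    exact hzσ _ (spec_mob he0 hp'r (hzp' _) h)

end Pool.Agent.V11321.HN
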