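import Pool.Agent.V11321.HN.Ell

/-!
Nests of hyperinvariant subspaces.
-/

set_option autoImplicit false

open Filter Topology MeasureTheory Metric

namespace Pool.Agent.V11321.HN

open Pool.Agent.W402.HI Pool.Agent.W816.HI

variable {X : Type} [NormedAddCommGroup X] [NormedSpace ℂ X]

/-- nests of hyperinvariant subspaces along the real parts of the spectrum beyond `a` -/
def Nest (T : X →L[ℂ] X) (a : ℝ) : Prop := ∃ V : ℝ → Submodule ℂ X,
  (∀ c : ℝ, IsClosed (V c : Set X) ∧ ∀ Q : X →L[ℂ] X, Q * T = T * Q → ∀ x ∈ V c, Q x ∈ V c) ∧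
  (∀ c c' : ℝ, c ≤ c' → V c ≤ V c') ∧
  (∀ c c' : ℝ, a ≤ c → ∀ μ ∈ spectrum ℂ T, c < μ.re → μ.re < c' → V c ≠ V c') ∧
  (∀ c : ℝ, a < c → ∀ μ ∈ spectrum ℂ T, μ.re < c → V c ≠ ⊥) ∧
  (∀ c : ℝ, a ≤ c → ∀ μ ∈ spectrum ℂ T, c < μ.re → V c ≠ ⊤)

variable [CompleteSpace X]

/-- the common kernel of the cut-off integrals with support on the right of the line `Re z = c` -/
def VV (T : X →L[ℂ] X) (c : ℝ) : Submodule ℂ X where
  carrier := {x | ∀ F : ℂ → ℂ, Dat T F c → (∀ z ∈ tsupport F, c ≤ z.re) →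
    (∫ z, Gf T F z : X →L[ℂ] X) x = 0}
  add_mem' := by
    intro x y hx hy F h1 h2
    rw [map_add, hx F h1 h2, hy F h1 h2, add_zero]
  zero_mem' := by
    intro F _ _
    rw [map_zero]
  smul_mem' := by
    intro r x hx F h1 h2
    rw [map_smul, hx F h1 h2, smul_zero]

theorem mem_VV (T : X →L[ℂ] X) (c : ℝ) (x : X) : x ∈ VV T c ↔ ∀ F : ℂ → ℂ, Dat T F c →
    (∀ z ∈ tsupport F, c ≤ z.re) → (∫ z, Gf T F z : X →L[ℂ] X) x = 0 := Iff.rfl

theorem VV_closed (T : X →L[ℂ] X) (c : ℝ) : IsClosed (VV T c : Set X) := by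
  have : (VV T c : Set X) = ⋂ F : ℂ → ℂ, ⋂ _ : Dat T F c, ⋂ _ : ∀ z ∈ tsupport F, c ≤ z.re,
      {x | (∫ z, Gf T F z : X →L[ℂ] X) x = 0} := by
    ext x
    simp only [Set.mem_iInter, Set.mem_setOf_eq]
    exact mem_VV T c x
  rw [this]
  exact isClosed_iInter fun F => isClosed_iInter fun _ => isClosed_iInter fun _ =>
    isClosed_eq (ContinuousLinearMap.continuous _) continuous_const

theorem VV_hyp (T : X →L[ℂ] X) (c : ℝ) (Q : X →L[ℂ] X) (hQ : Q * T = T * Q) (x : X)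
    (hx : x ∈ VV T c) : Q x ∈ VV T c := by
  intro F h1 h2
  have h3 := AI_comm hQ h1
  have h4 := congrArg (fun B : X →L[ℂ] X => B x) h3
  change Q ((∫ z, Gf T F z : X →L[ℂ] X) x) = (∫ z, Gf T F z : X →L[ℂ] X) (Q x) at h4
  rw [← h4, hx F h1 h2, map_zero]

theorem Dat_mono {T : X →L[ℂ] X} {F : ℂ → ℂ} {c c' : ℝ} (hc : c ≤ c') (h : Dat T F c')
    (hs : ∀ z ∈ tsupport F, c' ≤ z.re) : Dat T F c := by
  refine ⟨h.tst, h.res, ?_⟩
  obtain ⟨M, hM⟩ := h.bd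
  refine ⟨|M|, fun z => ?_⟩
  by_cases hz : D F z = 0
  · rw [hz, norm_zero, zero_mul]
    positivity
  · have hz' : z ∈ tsupport F := by
      by_contra hc; exact hz (D_zero_off hc)
    have h1 := hs z hz'
    refine (hM z).trans ?_
    have h2 : |z.re - c'| ≤ |z.re - c| := by
      rw [abs_of_nonneg (by linarith), abs_of_nonneg (by linarith)]
      linarith
    exact mul_le_mul (le_abs_self M) h2 (abs_nonneg _) (abs_nonneg _)

theorem VV_mono (T : X →L[ℂ] X) {c c' : ℝ} (hc : c ≤ c') : VV T c ≤ VV T c' := by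
  intro x hx F h1 h2
  exact hx F (Dat_mono hc h1 h2) fun z hz => hc.trans (h2 z hz)

theorem left_mem (T : X →L[ℂ] X) {c : ℝ} {F : ℂ → ℂ} (h : Dat T F c)
    (hs : ∀ z ∈ tsupport F, z.re ≤ c) (x : X) : (∫ z, Gf T F z : X →L[ℂ] X) x ∈ VV T c := by
  intro G h1 h2
  have h0 := AI_mul Pool.Agent.W816.HI.mainA2 h h1 (Z := {z : ℂ | z.re = c})
    (fun z hz => (hs z hz).lt_or_eq) (fun z hz => (h2 z hz).lt_or_eq.imp id Eq.symm)
    (fun z hz => hz)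
  have hT : (∫ z, Gf T F z : X →L[ℂ] X) * T = T * (∫ z, Gf T F z : X →L[ℂ] X) :=
    (AI_comm (rfl : T * T = T * T) h).symm
  have h3 := AI_comm hT h1
  rw [h0] at h3
  have h4 := congrArg (fun B : X →L[ℂ] X => B x) h3
  exact h4.symm

theorem cut (T : X →L[ℂ] X) (γ : ℝ → ℂ) (K : NNReal) (hγ : LipschitzWith K γ) (a : ℝ)
    (hspec : ∀ z ∈ spectrum ℂ T, a < z.re → z ∈ γ '' Set.Icc 0 1)
    (hgr : ∃ A : ℕ, ∀ w ∈ γ '' Set.Icc 0 1, a < w.re → ∀ d : ℂ, ‖d‖ = 1 →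
      TangentAt (γ '' Set.Icc 0 1) w d → ConeGrowth (fun z => ‖resolvent T z‖) w d A)
    {b b' : ℝ} (hab : a ≤ b) (hbb : b < b') :
    ∃ c ∈ Set.Ioo b b', ∃ F₁ F₂ : ℂ → ℂ, Dat T F₁ c ∧ Dat T F₂ c ∧
      (∀ z ∈ tsupport F₁, z.re ≤ c) ∧ (∀ z ∈ tsupport F₂, c ≤ z.re) ∧
      (∀ p ∈ spectrum ℂ T, p.re < c → Ell T p (∫ z, Gf T F₁ z)) ∧
      (∀ p ∈ spectrum ℂ T, c < p.re → Ell T p (∫ z, Gf T F₂ z)) := by
  obtain ⟨A, hgrA⟩ := hgr
  obtain ⟨c, hc, Z, dir, hgl⟩ := Final.hB γ K hγ b b' hbb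
  have hac : a < c := hab.trans_lt hc.1
  obtain ⟨E, hE⟩ : ∃ E : Set ℂ, E = spectrum ℂ T ∪ γ '' Set.Icc 0 1 := ⟨_, rfl⟩
  have hcomp : IsCompact E := by
    rw [hE]
    exact (spectrum.isCompact T).union (isCompact_Icc.image hγ.continuous)
  have hEa : ∀ z ∈ E, a < z.re → z ∈ γ '' Set.Icc 0 1 := by
    intro z hz ha
    rw [hE] at hz
    rcases hz with hz | hz
    · exact hspec z hz ha
    · exact hz
  have hΓE : ∀ z ∈ γ '' Set.Icc 0 1, z ∈ E := fun z hz => by rw [hE]; exact Or.inr hz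
  have hgl' : GoodLine E c Z dir := by
    refine ⟨fun z => ?_, fun w hw => ?_⟩
    · rw [hgl.1 z]
      constructor
      · rintro ⟨h1, h2⟩
        exact ⟨hΓE z h1, h2⟩
      · rintro ⟨h1, h2⟩
        exact ⟨hEa z h1 (by rw [h2]; exact hac), h2⟩
    · obtain ⟨h1, h2, h3⟩ := hgl.2 w hw
      refine ⟨h1, h2, ?_⟩
      have hwc : w.re = c := ((hgl.1 w).1 hw).2
      intro θ hθ
      obtain ⟨r, hr, hz⟩ := h3 θ hθ
      refine ⟨min r (c - a), lt_min hr (by linarith), ?_⟩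
      intro z hzE hzr
      have h4 : |(z - w).re| ≤ ‖z - w‖ := Complex.abs_re_le_norm _
      rw [Complex.sub_re, hwc] at h4
      have h5 := (abs_le.1 h4).1
      have h6 := hzr.trans_le (min_le_right _ _)
      exact hz z (hEa z hzE (by linarith)) (hzr.trans_le (min_le_left _ _))
  have hresset : ∀ z, z ∉ E → z ∈ resolventSet ℂ T := by
    intro z hz
    by_contra h
    apply hz
    rw [hE]
    exact Or.inl h
  have hN0 : ∀ z : ℂ, 0 ≤ ‖resolvent T z‖ := fun z => norm_nonneg _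
  have hNc : ContinuousOn (fun z : ℂ => ‖resolvent T z‖) Eᶜ := by
    intro z hz
    have h1 := (spectrum.hasDerivAt_resolvent_const_left (hresset z hz)).continuousAt
    exact (h1.norm).continuousWithinAt
  have hcg : ∀ w ∈ Z, ConeGrowth (fun z : ℂ => ‖resolvent T z‖) w (dir w) A := by
    intro w hw
    have hw1 := (hgl.1 w).1 hw
    obtain ⟨hd1, -, htan⟩ := hgl.2 w hw
    exact hgrA w hw1.1 (by rw [hw1.2]; exact hac) (dir w) hd1 htan
  obtain ⟨F₁, hF1, hs1, hD1, hM1, hp1⟩ := Final.hC E hcomp c Z dir hgl' _ A hN0 hNc hcg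
  obtain ⟨F₂, hF2, hs2, hD2, hM2, hp2⟩ := Final.hC2 E hcomp c Z dir hgl' _ A hN0 hNc hcg
  have hsE : ∀ z ∈ spectrum ℂ T, z ∈ E := fun z hz => by rw [hE]; exact Or.inl hz
  have d1 : Dat T F₁ c := ⟨hF1, fun z hz => hresset z (hD1 z hz), hM1⟩
  have d2 : Dat T F₂ c := ⟨hF2, fun z hz => hresset z (hD2 z hz), hM2⟩
  have h3 : P_A3 := Pool.Agent.W261.HI.A3.main Pool.Agent.W816.HI.mainA1
  have hZ : ∀ z ∈ Z, z.re = c := fun z hz => ((hgl.1 z).1 hz).2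
  refine ⟨c, hc, F₁, F₂, d1, d2, ?_, ?_, ?_, ?_⟩
  · intro z hz
    rcases hs1 z hz with h | h
    · exact h.le
    · exact (hZ z h).le
  · intro z hz
    rcases hs2 z hz with h | h
    · exact h.le
    · exact (hZ z h).ge
  · intro p hp hpc
    obtain ⟨h4, h5⟩ := hp1 p (hsE p hp) hpc
    exact ell h3 d1 h4 h5
  · intro p hp hpc
    obtain ⟨h4, h5⟩ := hp2 p (hsE p hp) hpc
    exact ell h3 d2 h4 h5

/-- **the nest theorem** -/
theorem nest (T : X →L[ℂ] X) (γ : ℝ → ℂ) (K : NNReal) (hγ : LipschitzWith K γ) (a : ℝ)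
    (hspec : ∀ z ∈ spectrum ℂ T, a < z.re → z ∈ γ '' Set.Icc 0 1)
    (hgr : ∃ A : ℕ, ∀ w ∈ γ '' Set.Icc 0 1, a < w.re → ∀ d : ℂ, ‖d‖ = 1 →
      TangentAt (γ '' Set.Icc 0 1) w d → ConeGrowth (fun z => ‖resolvent T z‖) w d A) :
    Nest T a := by
  have hcut := @cut X _ _ _ T γ K hγ a hspec hgr
  refine ⟨VV T, fun c => ⟨VV_closed T c, fun Q hQ x hx => VV_hyp T c Q hQ x hx⟩,
    fun c c' hcc => VV_mono T hcc, ?_, ?_, ?_⟩
  · intro c c' hac μ hμ h1 h2 heq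
    obtain ⟨c₁, hc₁, _, R, _, dR, _, sR, _, eR⟩ := hcut hac h1
    obtain ⟨c₂, hc₂, L, _, dL, _, sL, _, eL, _⟩ := hcut (hac.trans h1.le) h2
    have hR := eR μ hμ hc₁.2
    have hL := eL μ hμ hc₂.1
    have hne := (hR.mul (hL.mul hR)).ne hμ
    apply hne
    ext x
    have h3 : (∫ z, Gf T L z : X →L[ℂ] X) ((∫ z, Gf T R z : X →L[ℂ] X) x) ∈ VV T c₂ :=
      left_mem T dL sL _
    have h4 := VV_mono T hc₂.2.le h3
    rw [← heq] at h4
    have h5 := VV_mono T hc₁.1.le h4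
    exact h5 R dR sR
  · intro c hac μ hμ h1 heq
    obtain ⟨c₁, hc₁, L, _, dL, _, sL, _, eL, _⟩ := hcut (b := max a μ.re) (b' := c)
      (le_max_left _ _) (max_lt hac h1)
    have hL := eL μ hμ ((le_max_right _ _).trans_lt hc₁.1)
    apply hL.ne hμ
    ext x
    have h3 : (∫ z, Gf T L z : X →L[ℂ] X) x ∈ VV T c₁ := left_mem T dL sL _
    have h4 := VV_mono T hc₁.2.le h3
    rw [heq, Submodule.mem_bot] at h4
    exact h4
  · intro c hac μ hμ h1 heq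
    obtain ⟨c₁, hc₁, _, R, _, dR, _, sR, _, eR⟩ := hcut hac h1
    have hR := eR μ hμ hc₁.2
    apply hR.ne hμ
    ext x
    have h3 : x ∈ VV T c := by rw [heq]; trivial
    exact VV_mono T hc₁.1.le h3 R dR sR

end Pool.Agent.V11321.HN
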