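import Pool.Agent.V11321.HN.Pert

/-!
Infinite chains for perturbations of normal operators; nests beyond a vertical line.
-/

set_option autoImplicit false

open Filter Topology MeasureTheory Metric

namespace Pool.Agent.V11321.HN

open Pool.Agent.W402.HI Pool.Agent.W816.HI

theorem normal_growth (H : Type) [NormedAddCommGroup H] [InnerProductSpace ℂ H] [CompleteSpace H]
    (N : H →L[ℂ] H) (hN : IsStarNormal N) (E U : Set ℂ) (hc : IsCompact E) (hne : E.Nonempty)
    (hU : IsOpen U) (hNE : ∀ z ∈ spectrum ℂ N, z ∈ U → z ∈ E) [Nontrivial H] (p : ℂ) (hpU : p ∈ U) :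
    ∃ r : ℝ, 0 < r ∧ ball p r ⊆ U ∧ ∃ (C : ℝ) (k : ℕ), ∀ z ∈ ball p r, z ∉ E →
      z ∈ resolventSet ℂ N ∧ ‖resolvent N z‖ ≤ C / infDist z E ^ k := by
  have g3 := Pool.Agent.W32.HI.G3.main
  obtain ⟨r, hr, hrU⟩ := Metric.isOpen_iff.1 hU p hpU
  have hσc : IsCompact (spectrum ℂ N) := spectrum.isCompact N
  have hσn : (spectrum ℂ N).Nonempty := spectrum.nonempty N
  obtain ⟨e, he⟩ := hne
  obtain ⟨C, hCdef⟩ : ∃ C : ℝ, C = 1 + (2 / r) * (‖p - e‖ + r) := ⟨_, rfl⟩
  have hCpos : 0 ≤ (2 / r) * (‖p - e‖ + r) := by positivity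
  refine ⟨r / 2, by positivity, (ball_subset_ball (by linarith)).trans hrU, C, 1, ?_⟩
  intro z hz hzE
  have hzU : z ∈ U := hrU (ball_subset_ball (by linarith) hz)
  have hzσ : z ∉ spectrum ℂ N := fun h => hzE (hNE z h hzU)
  obtain ⟨hz1, hz2⟩ := g3 H N (spectrum ℂ N) hN hσc hσn le_rfl z hzσ
  refine ⟨hz1, hz2.trans ?_⟩
  have hd : 0 < infDist z E := (hc.isClosed.notMem_iff_infDist_pos ⟨e, he⟩).1 hzE
  have hdle : infDist z E ≤ ‖p - e‖ + r := by
    calc infDist z E ≤ dist z e := infDist_le_dist_of_mem he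
      _ ≤ dist z p + dist p e := dist_triangle _ _ _
      _ ≤ r + ‖p - e‖ := by
          rw [dist_eq_norm p e]
          have := (mem_ball.1 hz).le
          linarith
      _ = _ := by ring
  have hmin : min (infDist z E) (r / 2) ≤ infDist z (spectrum ℂ N) := by
    refine (le_infDist hσn).2 fun w hw => ?_
    by_cases hwU : w ∈ U
    · exact (min_le_left _ _).trans (infDist_le_dist_of_mem (hNE w hw hwU))
    · refine (min_le_right _ _).trans ?_
      have h1 : r ≤ dist w p := by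
        by_contra hlt
        exact hwU (hrU (mem_ball.2 (not_le.1 hlt)))
      have h2 := dist_triangle w z p
      have h3 := mem_ball.1 hz
      rw [dist_comm w z] at h2
      linarith
  rw [pow_one]
  have hmpos : 0 < min (infDist z E) (r / 2) := lt_min hd (by positivity)
  refine (one_div_le_one_div_of_le hmpos hmin).trans ?_
  rcases le_total (infDist z E) (r / 2) with h | h
  · rw [min_eq_left h]
    gcongr
    linarith
  · rw [min_eq_right h, le_div_iff₀ hd]
    calc 1 / (r / 2) * infDist z E ≤ 1 / (r / 2) * (‖p - e‖ + r) := by gcongr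
      _ = (2 / r) * (‖p - e‖ + r) := by rw [one_div_div]
      _ ≤ C := by rw [hCdef]; linarith

/-- perturbations of normal operators -/
theorem chain_normal (H : Type) [NormedAddCommGroup H] [InnerProductSpace ℂ H] [CompleteSpace H]
    (N K : H →L[ℂ] H) (hN : IsStarNormal N) (γ : ℝ → ℂ) (L : NNReal) (hγ : LipschitzWith L γ)
    (U : Set ℂ) (hU : IsOpen U) (hNE : ∀ z ∈ spectrum ℂ N, z ∈ U → z ∈ γ '' Set.Icc 0 1)
    (hK : ApproxDecay K) (p : ℂ) (hpU : p ∈ U)
    (hacc : ∃ᶠ z in 𝓝[≠] p, z ∈ spectrum ℂ (N + K)) : InfChain (N + K) := by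
  obtain ⟨hc, hne⟩ := Asm.curve_compact γ L hγ
  have hnt : Nontrivial H := by
    by_contra hh
    rw [not_nontrivial_iff_subsingleton] at hh
    obtain ⟨z, hz⟩ := hacc.exists
    apply hz
    have : algebraMap ℂ (H →L[ℂ] H) z - (N + K) = 1 := by
      ext x
      exact Subsingleton.elim _ _
    rw [spectrum.mem_resolventSet_iff, this]
    exact isUnit_one
  obtain ⟨r, hr, hrU, hgr⟩ := normal_growth H N hN _ U hc hne hU hNE p hpU
  exact chain_poly N K γ L hγ (ball p r) isOpen_ball hK hgr p (mem_ball_self hr) hacc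

variable {X : Type} [NormedAddCommGroup X] [NormedSpace ℂ X] [CompleteSpace X]

theorem open_half (a : ℝ) : IsOpen {z : ℂ | a < z.re} :=
  isOpen_lt continuous_const Complex.continuous_re

/-- nest, growth in terms of the distance -/
theorem nest_growth (T : X →L[ℂ] X) (γ : ℝ → ℂ) (L : NNReal) (hγ : LipschitzWith L γ) (a : ℝ)
    (hT : ∃ (C : ℝ) (k : ℕ), ∀ z : ℂ, a < z.re → z ∉ γ '' Set.Icc 0 1 → z ∈ resolventSet ℂ T ∧
      ‖resolvent T z‖ ≤ Real.exp (C / infDist z (γ '' Set.Icc 0 1) ^ k)) : Nest T a := by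
  obtain ⟨hc, hne⟩ := Asm.curve_compact γ L hγ
  obtain ⟨C, k, hC⟩ := hT
  refine nest T γ L hγ a (fun z hz hzU => ?_) ⟨k, ?_⟩
  · by_contra hE
    exact hz (hC z hzU hE).1
  · intro w hw ha
    exact Final.hH3 (fun z => ‖resolvent T z‖) _ {z : ℂ | a < z.re} C k hc (open_half a)
      (fun z hz hzE => (hC z hz hzE).2) w hw ha

/-- nest for perturbations -/
theorem nest_pert (S K : X →L[ℂ] X) (γ : ℝ → ℂ) (L : NNReal) (hγ : LipschitzWith L γ) (a : ℝ)
    (hs : ∀ z ∈ spectrum ℂ (S + K), a < z.re → z ∈ γ '' Set.Icc 0 1)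
    (hP : ∃ (C : ℝ) (q : ℕ), PertL S K (γ '' Set.Icc 0 1) {z : ℂ | a < z.re} C q) :
    Nest (S + K) a := by
  obtain ⟨hc, hne⟩ := Asm.curve_compact γ L hγ
  obtain ⟨C, q, hC⟩ := hP
  exact nest (S + K) γ L hγ a hs (Final.hE3 X S K _ _ C q hc (open_half a) hC hs)

end Pool.Agent.V11321.HN
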