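import Pool.Agent.V11321.HN.Local

/-!
Infinite chains of hyperinvariant subspaces: growth of the resolvent, perturbations.
-/

set_option autoImplicit false

open Filter Topology MeasureTheory Metric

namespace Pool.Agent.V11321.HN

open Pool.Agent.W402.HI Pool.Agent.W816.HI

variable {X : Type} [NormedAddCommGroup X] [NormedSpace ℂ X]

/-- the product of the `T - z i`, `i < n` -/
noncomputable def PP (T : X →L[ℂ] X) (z : ℕ → ℂ) : ℕ → X →L[ℂ] X
  | 0 => 1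
  | n + 1 => (T - z n • (1 : X →L[ℂ] X)) * PP T z n

theorem PP_comm {T Q : X →L[ℂ] X} (hQ : Q * T = T * Q) (z : ℕ → ℂ) (n : ℕ) :
    Q * PP T z n = PP T z n * Q := by
  induction n with
  | zero => simp [PP]
  | succ n ih =>
    have h1 : Q * (T - z n • (1 : X →L[ℂ] X)) = (T - z n • (1 : X →L[ℂ] X)) * Q := by
      rw [mul_sub, sub_mul, hQ, mul_smul_comm, smul_mul_assoc, mul_one, one_mul]
    simp only [PP]
    rw [← mul_assoc, h1, mul_assoc, ih, mul_assoc]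

theorem PP_eig {T : X →L[ℂ] X} {x : X} {μ : ℂ} (h : T x = μ • x) (z : ℕ → ℂ) (n : ℕ) :
    PP T z n x = (∏ i ∈ Finset.range n, (μ - z i)) • x := by
  induction n with
  | zero => simp [PP]
  | succ n ih =>
    simp only [PP, ContinuousLinearMap.mul_apply, ih, map_smul, ContinuousLinearMap.sub_apply,
      ContinuousLinearMap.smul_apply, ContinuousLinearMap.one_apply, h]
    rw [Finset.prod_range_succ, ← sub_smul, smul_smul]

theorem chain_of_eigs (T : X →L[ℂ] X) (h : {z : ℂ | ∃ x : X, x ≠ 0 ∧ T x = z • x}.Infinite) :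
    InfChain T := by
  have hinf : Infinite {z : ℂ | ∃ x : X, x ≠ 0 ∧ T x = z • x} := h.to_subtype
  let f := Infinite.natEmbedding {z : ℂ | ∃ x : X, x ≠ 0 ∧ T x = z • x}
  have hf : ∀ n, ∃ x : X, x ≠ 0 ∧ T x = (f n : ℂ) • x := fun n => (f n).2
  have hinj : ∀ i j, (f i : ℂ) = f j → i = j := fun i j hij => f.injective (Subtype.ext hij)
  refine ⟨fun n => LinearMap.ker (PP T (fun i => (f i : ℂ)) n : X →ₗ[ℂ] X), fun n => ⟨?_, ?_⟩,
    Or.inl (strictMono_nat_of_lt_succ fun n => ?_)⟩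
  · exact (PP T (fun i => (f i : ℂ)) n).isClosed_ker
  · intro Q hQ x hx
    rw [LinearMap.mem_ker] at hx ⊢
    have h1 := congrArg (fun B : X →L[ℂ] X => B x) (PP_comm hQ (fun i => (f i : ℂ)) n)
    change Q (PP T (fun i => (f i : ℂ)) n x) = PP T (fun i => (f i : ℂ)) n (Q x) at h1
    change PP T (fun i => (f i : ℂ)) n x = 0 at hx
    change PP T (fun i => (f i : ℂ)) n (Q x) = 0
    rw [← h1, hx, map_zero]
  · rw [lt_iff_le_and_ne]
    constructor
    · intro x hx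
      rw [LinearMap.mem_ker] at hx ⊢
      change PP T (fun i => (f i : ℂ)) n x = 0 at hx
      change PP T (fun i => (f i : ℂ)) (n + 1) x = 0
      simp only [PP, ContinuousLinearMap.mul_apply, hx, map_zero]
    · intro heq
      obtain ⟨x, hx0, hx⟩ := hf n
      have h1 : x ∈ LinearMap.ker (PP T (fun i => (f i : ℂ)) (n + 1) : X →ₗ[ℂ] X) := by
        rw [LinearMap.mem_ker]
        change PP T (fun i => (f i : ℂ)) (n + 1) x = 0
        rw [PP_eig hx, Finset.prod_range_succ, sub_self, mul_zero, zero_smul]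
      have h1' : x ∈ LinearMap.ker (PP T (fun i => (f i : ℂ)) n : X →ₗ[ℂ] X) := by
        have heq' : LinearMap.ker (PP T (fun i => (f i : ℂ)) n : X →ₗ[ℂ] X) =
          LinearMap.ker (PP T (fun i => (f i : ℂ)) (n + 1) : X →ₗ[ℂ] X) := heq
        rw [heq']
        exact h1
      rw [LinearMap.mem_ker] at h1'
      change PP T (fun i => (f i : ℂ)) n x = 0 at h1'
      rw [PP_eig hx, smul_eq_zero] at h1'
      rcases h1' with h2 | h2
      · rw [Finset.prod_eq_zero_iff] at h2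
        obtain ⟨i, hi, h3⟩ := h2
        have := hinj n i (sub_eq_zero.1 h3)
        rw [Finset.mem_range] at hi
        omega
      · exact hx0 h2

theorem eig_of [CompleteSpace X] {S K : X →L[ℂ] X} (hK : IsCompactOperator K) {z : ℂ}
    (hzS : z ∈ resolventSet ℂ S) (hzT : z ∈ spectrum ℂ (S + K)) :
    ∃ x : X, x ≠ 0 ∧ (S + K) x = z • x := by
  obtain ⟨R, hR⟩ : ∃ R : X →L[ℂ] X, R = resolvent S z := ⟨_, rfl⟩
  have hu : IsUnit (algebraMap ℂ (X →L[ℂ] X) z - S) := by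
    simpa [spectrum.mem_resolventSet_iff] using hzS
  have hR1 : (algebraMap ℂ (X →L[ℂ] X) z - S) * R = 1 := by
    rw [hR, resolvent]
    exact Ring.mul_inverse_cancel _ hu
  have hfac : algebraMap ℂ (X →L[ℂ] X) z - (S + K) =
      (algebraMap ℂ (X →L[ℂ] X) z - S) * (1 - R * K) := by
    rw [mul_sub, mul_one, ← mul_assoc, hR1, one_mul]; abel
  have hnu : ¬ IsUnit (1 - R * K) := by
    intro h
    apply hzT
    rw [spectrum.mem_resolventSet_iff, hfac]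
    exact hu.mul h
  have h1 : (1 : ℂ) ∈ spectrum ℂ (R * K) := by
    rw [spectrum.mem_iff]
    simpa using hnu
  have hcomp : IsCompactOperator (R * K) := hK.clm_comp R
  have hev := (IsCompactOperator.hasEigenvalue_iff_mem_spectrum hcomp one_ne_zero).2 h1
  obtain ⟨x, hx⟩ := hev.exists_hasEigenvector
  have hx0 : x ≠ 0 := hx.2
  have hRK : R (K x) = x := by
    have := hx.apply_eq_smul
    simpa using this
  have hSx : z • x - S x = K x := by
    have := congrArg (fun L : X →L[ℂ] X => L (K x)) hR1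
    simp only [ContinuousLinearMap.mul_apply, ContinuousLinearMap.one_apply,
      ContinuousLinearMap.sub_apply, hRK] at this
    simpa [Algebra.algebraMap_eq_smul_one] using this
  exact ⟨x, hx0, by rw [ContinuousLinearMap.add_apply, ← hSx]; abel⟩

variable [CompleteSpace X]

theorem chain_pert (T : X →L[ℂ] X) (γ : ℝ → ℂ) (L : NNReal) (hγ : LipschitzWith L γ) (U : Set ℂ)
    (hU : IsOpen U)
    (hoff : ∀ z ∈ spectrum ℂ T, z ∈ U → z ∉ γ '' Set.Icc 0 1 → ∃ x : X, x ≠ 0 ∧ T x = z • x)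
    (hgrow : ∀ U' : Set ℂ, U' ⊆ U → IsOpen U' → (∀ z ∈ spectrum ℂ T, z ∈ U' → z ∈ γ '' Set.Icc 0 1) →
      ∃ A : ℕ, ∀ w ∈ γ '' Set.Icc 0 1, w ∈ U' → ∀ d : ℂ, ‖d‖ = 1 →
      TangentAt (γ '' Set.Icc 0 1) w d → ConeGrowth (fun z => ‖resolvent T z‖) w d A)
    (p : ℂ) (hpU : p ∈ U) (hacc : ∃ᶠ z in 𝓝[≠] p, z ∈ spectrum ℂ T) : InfChain T := by
  by_cases hinf : {z : ℂ | z ∈ spectrum ℂ T ∧ z ∈ U ∧ z ∉ γ '' Set.Icc 0 1}.Infinite
  · exact chain_of_eigs T (hinf.mono fun z hz => hoff z hz.1 hz.2.1 hz.2.2)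
  · rw [Set.not_infinite] at hinf
    obtain ⟨Fs, hFs⟩ : ∃ Fs, Fs = {z : ℂ | z ∈ spectrum ℂ T ∧ z ∈ U ∧ z ∉ γ '' Set.Icc 0 1} :=
      ⟨_, rfl⟩
    rw [← hFs] at hinf
    have hΓc : IsClosed (γ '' Set.Icc 0 1) := (isCompact_Icc.image hγ.continuous).isClosed
    have hpΓ : p ∈ γ '' Set.Icc 0 1 := by
      rw [← hΓc.closure_eq, mem_closure_iff_frequently]
      have h1 : ∀ᶠ z in 𝓝[≠] p, z ∈ U := nhdsWithin_le_nhds (hU.mem_nhds hpU)
      have h2 : ∀ᶠ z in 𝓝[≠] p, z ∉ Fs \ {p} :=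
        nhdsWithin_le_nhds ((hinf.subset Set.sdiff_subset).isClosed.isOpen_compl.mem_nhds
          (by simp))
      have h3 : ∀ᶠ z in 𝓝[≠] p, z ≠ p := self_mem_nhdsWithin
      have h4 : ∃ᶠ z in 𝓝[≠] p, z ∈ γ '' Set.Icc 0 1 := by
        refine (hacc.and_eventually (h1.and (h2.and h3))).mono ?_
        rintro z ⟨a1, a2, a3, a4⟩
        by_contra hc
        exact a3 ⟨by rw [hFs]; exact ⟨a1, a2, hc⟩, a4⟩
      exact h4.filter_mono nhdsWithin_le_nhds
    have hsub : ∀ z ∈ spectrum ℂ T, z ∈ U \ Fs → z ∈ γ '' Set.Icc 0 1 := by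
      intro z hz hzU
      by_contra hc
      exact hzU.2 (by rw [hFs]; exact ⟨hz, hzU.1, hc⟩)
    have hop : IsOpen (U \ Fs) := hU.sdiff hinf.isClosed
    refine chain_local T γ L hγ (U \ Fs) hop hsub p ⟨hpU, ?_⟩ hacc
      (hgrow _ Set.sdiff_subset hop hsub)
    rw [hFs]
    exact fun h => h.2.2 hpΓ

/-- growth in terms of the distance -/
theorem chain_growth (T : X →L[ℂ] X) (γ : ℝ → ℂ) (L : NNReal) (hγ : LipschitzWith L γ) (U : Set ℂ)
    (hU : IsOpen U)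
    (hT : ∃ (C : ℝ) (k : ℕ), ∀ z ∈ U, z ∉ γ '' Set.Icc 0 1 → z ∈ resolventSet ℂ T ∧
      ‖resolvent T z‖ ≤ Real.exp (C / infDist z (γ '' Set.Icc 0 1) ^ k))
    (p : ℂ) (hpU : p ∈ U) (hacc : ∃ᶠ z in 𝓝[≠] p, z ∈ spectrum ℂ T) : InfChain T := by
  obtain ⟨hc, hne⟩ := Asm.curve_compact γ L hγ
  obtain ⟨C, k, hC⟩ := hT
  refine chain_local T γ L hγ U hU (fun z hz hzU => ?_) p hpU hacc ⟨k, ?_⟩
  · by_contra hE
    exact hz (hC z hzU hE).1
  · exact Final.hH3 (fun z => ‖resolvent T z‖) _ U C k hc hU (fun z hz hzE => (hC z hz hzE).2)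

/-- polynomial decay and growth -/
theorem chain_poly (S K : X →L[ℂ] X) (γ : ℝ → ℂ) (L : NNReal) (hγ : LipschitzWith L γ) (U : Set ℂ)
    (hU : IsOpen U) (hK : ApproxDecay K)
    (hS : ∃ (C : ℝ) (k : ℕ), ∀ z ∈ U, z ∉ γ '' Set.Icc 0 1 → z ∈ resolventSet ℂ S ∧
      ‖resolvent S z‖ ≤ C / infDist z (γ '' Set.Icc 0 1) ^ k)
    (p : ℂ) (hpU : p ∈ U) (hacc : ∃ᶠ z in 𝓝[≠] p, z ∈ spectrum ℂ (S + K)) :
    InfChain (S + K) := by
  obtain ⟨hc, hne⟩ := Asm.curve_compact γ L hγ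
  refine chain_pert (S + K) γ L hγ U hU (fun z hz hzU hzE => ?_) (fun U' hU' hop hs => ?_)
    p hpU hacc
  · obtain ⟨C, k, hC⟩ := hS
    exact eig_of (Pool.Agent.W991.HI.E5.main X S K _ hc hne hK).1 (hC z hzU hzE).1 hz
  · obtain ⟨C, k, hC⟩ := hS
    obtain ⟨C', q, hC'⟩ := Pool.Agent.W991.HI.E5L.main X S K _ U' hc hne hK
      ⟨C, k, fun z hz hzE => hC z (hU' hz) hzE⟩
    exact Final.hE3 X S K _ U' C' q hc hop hC' hs

/-- stretched exponential decay, exponential growth -/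
theorem chain_exp (S K : X →L[ℂ] X) (γ : ℝ → ℂ) (L : NNReal) (hγ : LipschitzWith L γ) (U : Set ℂ)
    (hU : IsOpen U) (hK : Asm.ExpDecay K)
    (hS : ∃ (C : ℝ) (k : ℕ), ∀ z ∈ U, z ∉ γ '' Set.Icc 0 1 → z ∈ resolventSet ℂ S ∧
      ‖resolvent S z‖ ≤ Real.exp (C / infDist z (γ '' Set.Icc 0 1) ^ k))
    (p : ℂ) (hpU : p ∈ U) (hacc : ∃ᶠ z in 𝓝[≠] p, z ∈ spectrum ℂ (S + K)) :
    InfChain (S + K) := by
  obtain ⟨hc, hne⟩ := Asm.curve_compact γ L hγ
  refine chain_pert (S + K) γ L hγ U hU (fun z hz hzU hzE => ?_) (fun U' hU' hop hs => ?_)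
    p hpU hacc
  · obtain ⟨C, k, hC⟩ := hS
    exact eig_of (Pool.Agent.W991.HI.E5.main X S K _ hc hne (Asm.approx_of_exp hK)).1
      (hC z hzU hzE).1 hz
  · obtain ⟨C, k, hC⟩ := hS
    obtain ⟨C', q, hC'⟩ := Asm.pertL_of_exp hc hne hK
      (S := S) (U := U') ⟨C, k, fun z hz hzE => hC z (hU' hz) hzE⟩
    exact Final.hE3 X S K _ U' C' q hc hop hC' hs

/-- matched growth and approximability -/
theorem chain_gen (S K : X →L[ℂ] X) (γ : ℝ → ℂ) (L : NNReal) (hγ : LipschitzWith L γ) (U : Set ℂ)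
    (hU : IsOpen U) (C : ℝ) (k : ℕ) (hM : Asm.Matched S K (γ '' Set.Icc 0 1) U C k)
    (p : ℂ) (hpU : p ∈ U) (hacc : ∃ᶠ z in 𝓝[≠] p, z ∈ spectrum ℂ (S + K)) :
    InfChain (S + K) := by
  obtain ⟨hc, hne⟩ := Asm.curve_compact γ L hγ
  refine chain_pert (S + K) γ L hγ U hU (fun z hz hzU hzE => ?_) (fun U' hU' hop hs => ?_)
    p hpU hacc
  · have hd : 0 < infDist z (γ '' Set.Icc 0 1) := (hc.isClosed.notMem_iff_infDist_pos hne).1 hzE
    obtain ⟨G, R, g1, g2, g3, g4, g5, g6⟩ := hM (min 1 (infDist z (γ '' Set.Icc 0 1)))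
      (lt_min one_pos hd) (min_le_left _ _)
    obtain ⟨g7, g8⟩ := g6 z hzU (min_le_right _ _)
    have e : S + K = (S + (K - G)) + G := by abel
    rw [e] at hz ⊢
    refine eig_of (Asm.finrank_compact G g1) (Asm.resolvent_pert g7 ?_) hz
    calc ‖K - G‖ * ‖resolvent S z‖ ≤ ‖K - G‖ * R := by gcongr
      _ ≤ 1 / 2 := g5
      _ < 1 := by norm_num
  · have hM' : Asm.Matched S K (γ '' Set.Icc 0 1) U' C k := by
      intro δ h1 h2
      obtain ⟨G, R, g1, g2, g3, g4, g5, g6⟩ := hM δ h1 h2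
      exact ⟨G, R, g1, g2, g3, g4, g5, fun z hz hd => g6 z (hU' hz) hd⟩
    exact Final.hE3 X S K _ U' _ k hc hop (Asm.pertL_of_matched hM') hs

end Pool.Agent.V11321.HN
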