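import Pool.Agent.V11321.HN.Norm

/-!
Splitting of the spectrum by the nests.
-/

set_option autoImplicit false

open Filter Topology MeasureTheory Metric

namespace Pool.Agent.V11321.HN

open Pool.Agent.W402.HI Pool.Agent.W816.HI

variable {X : Type} [NormedAddCommGroup X] [NormedSpace ℂ X]

/-- `w - T` maps `V` bijectively onto itself -/
def BijOn (T : X →L[ℂ] X) (V : Submodule ℂ X) (w : ℂ) : Prop :=
  (∀ x ∈ V, w • x - T x ∈ V) ∧ ∀ x ∈ V, ∃! y, y ∈ V ∧ w • y - T y = x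

/-- `w - T` induces a bijection of the quotient by `V` -/
def BijMod (T : X →L[ℂ] X) (V : Submodule ℂ X) (w : ℂ) : Prop :=
  (∀ x ∈ V, w • x - T x ∈ V) ∧ (∀ x, ∃ y, w • y - T y - x ∈ V) ∧ ∀ x, w • x - T x ∈ V → x ∈ V

theorem alg_apply (T : X →L[ℂ] X) (w : ℂ) (x : X) :
    (algebraMap ℂ (X →L[ℂ] X) w - T) x = w • x - T x := by
  rw [Algebra.algebraMap_eq_smul_one]
  rfl

theorem inv_sub {T : X →L[ℂ] X} {V : Submodule ℂ X} (hV : Hyp T V) (w : ℂ) (x : X) (hx : x ∈ V) :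
    w • x - T x ∈ V := V.sub_mem (V.smul_mem w hx) (hV.2 T rfl x hx)

theorem bijOn_of_ell {T : X →L[ℂ] X} {V : Submodule ℂ X} (hV : Hyp T V) {w : ℂ} {B : X →L[ℂ] X}
    (hB : Ell T w B) (h0 : ∀ x ∈ V, B x = 0) : BijOn T V w := by
  obtain ⟨κ, hκ, Y, hY, rfl⟩ := hB
  refine ⟨fun x hx => inv_sub hV w x hx, fun x hx => ?_⟩
  have hYV : ∀ x ∈ V, Y x ∈ V := fun x hx => hV.2 Y hY.symm x hx
  have hid : ∀ x ∈ V, w • Y x - T (Y x) = κ • x := by
    intro x hx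
    have h1 := h0 x hx
    change κ • x - (algebraMap ℂ (X →L[ℂ] X) w - T) (Y x) = 0 at h1
    rw [alg_apply] at h1
    exact (sub_eq_zero.1 h1).symm
  have hTY : ∀ x, T (Y x) = Y (T x) := fun x => congrArg (fun B : X →L[ℂ] X => B x) hY
  refine ⟨κ⁻¹ • Y x, ⟨V.smul_mem _ (hYV x hx), ?_⟩, ?_⟩
  · rw [map_smul, smul_comm, ← smul_sub, hid x hx, smul_smul, inv_mul_cancel₀ hκ, one_smul]
  · rintro y ⟨hy, hyx⟩
    have h1 := hid y hy
    rw [hTY, ← map_smul, ← map_sub, hyx] at h1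
    rw [h1, smul_smul, inv_mul_cancel₀ hκ, one_smul]

theorem bijMod_of_ell {T : X →L[ℂ] X} {V : Submodule ℂ X} (hV : Hyp T V) {w : ℂ} {B : X →L[ℂ] X}
    (hB : Ell T w B) (h0 : ∀ x, B x ∈ V) : BijMod T V w := by
  obtain ⟨κ, hκ, Y, hY, rfl⟩ := hB
  have hTY : ∀ x, T (Y x) = Y (T x) := fun x => congrArg (fun B : X →L[ℂ] X => B x) hY
  have hid : ∀ x, κ • x - (w • Y x - T (Y x)) ∈ V := by
    intro x
    have h1 := h0 x
    change κ • x - (algebraMap ℂ (X →L[ℂ] X) w - T) (Y x) ∈ V at h1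
    rw [alg_apply] at h1
    exact h1
  refine ⟨fun x hx => inv_sub hV w x hx, fun x => ⟨κ⁻¹ • Y x, ?_⟩, fun x hx => ?_⟩
  · have h1 := V.smul_mem (-κ⁻¹) (hid x)
    have e : -κ⁻¹ • (κ • x - (w • Y x - T (Y x))) = w • κ⁻¹ • Y x - T (κ⁻¹ • Y x) - x := by
      rw [map_smul, smul_comm w, ← smul_sub, smul_sub, smul_smul, neg_mul, inv_mul_cancel₀ hκ,
        neg_smul, neg_smul, one_smul]
      abel
    rwa [e] at h1
  · have h1 : Y (w • x - T x) ∈ V := hV.2 Y hY.symm _ hx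
    rw [map_sub, map_smul, ← hTY] at h1
    have h2 := V.add_mem (hid x) h1
    rw [sub_add_cancel] at h2
    have h3 := V.smul_mem κ⁻¹ h2
    rwa [smul_smul, inv_mul_cancel₀ hκ, one_smul] at h3

theorem inv_of_res {T : X →L[ℂ] X} {w : ℂ} (hw : w ∈ resolventSet ℂ T) :
    ∃ R : X →L[ℂ] X, R * T = T * R ∧ (∀ x, w • R x - T (R x) = x) ∧ ∀ x, R (w • x - T x) = x := by
  obtain ⟨u, hu⟩ := (spectrum.mem_resolventSet_iff.1 hw)
  have h1 : (algebraMap ℂ (X →L[ℂ] X) w - T) * (↑u⁻¹ : X →L[ℂ] X) = 1 := by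
    rw [← hu]; exact u.mul_inv
  have h2 : (↑u⁻¹ : X →L[ℂ] X) * (algebraMap ℂ (X →L[ℂ] X) w - T) = 1 := by
    rw [← hu]; exact u.inv_mul
  refine ⟨↑u⁻¹, ?_, fun x => ?_, fun x => ?_⟩
  · have h3 : (↑u⁻¹ : X →L[ℂ] X) * (algebraMap ℂ (X →L[ℂ] X) w - T) =
        (algebraMap ℂ (X →L[ℂ] X) w - T) * ↑u⁻¹ := by rw [h1, h2]
    rw [mul_sub, sub_mul, ← Algebra.commutes] at h3
    exact sub_right_injective h3
  · have := congrArg (fun B : X →L[ℂ] X => B x) h1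
    change (algebraMap ℂ (X →L[ℂ] X) w - T) ((↑u⁻¹ : X →L[ℂ] X) x) = x at this
    rwa [alg_apply] at this
  · have := congrArg (fun B : X →L[ℂ] X => B x) h2
    change (↑u⁻¹ : X →L[ℂ] X) ((algebraMap ℂ (X →L[ℂ] X) w - T) x) = x at this
    rwa [alg_apply] at this

theorem bijOn_of_res {T : X →L[ℂ] X} {V : Submodule ℂ X} (hV : Hyp T V) {w : ℂ}
    (hw : w ∈ resolventSet ℂ T) : BijOn T V w := by
  obtain ⟨R, h1, h2, h3⟩ := inv_of_res hw
  refine ⟨fun x hx => inv_sub hV w x hx, fun x hx => ⟨R x, ⟨hV.2 R h1 x hx, h2 x⟩, ?_⟩⟩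
  rintro y ⟨-, hy⟩
  rw [← hy, h3]

theorem bijMod_of_res {T : X →L[ℂ] X} {V : Submodule ℂ X} (hV : Hyp T V) {w : ℂ}
    (hw : w ∈ resolventSet ℂ T) : BijMod T V w := by
  obtain ⟨R, h1, h2, h3⟩ := inv_of_res hw
  refine ⟨fun x hx => inv_sub hV w x hx, fun x => ⟨R x, ?_⟩, fun x hx => ?_⟩
  · rw [h2, sub_self]
    exact V.zero_mem
  · have := hV.2 R h1 _ hx
    rwa [h3] at this

/-- an operator with a point `μ` of the spectrum: not both bijections -/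
theorem not_both {T : X →L[ℂ] X} [CompleteSpace X] {V : Submodule ℂ X} {μ : ℂ}
    (hμ : μ ∈ spectrum ℂ T) (h1 : BijOn T V μ) (h2 : BijMod T V μ) : False := by
  apply hμ
  have hinj : Function.Injective (algebraMap ℂ (X →L[ℂ] X) μ - T) := by
    intro x y hxy
    have h3 : (algebraMap ℂ (X →L[ℂ] X) μ - T) (x - y) = 0 := by
      rw [map_sub, sub_eq_zero]; exact hxy
    rw [alg_apply] at h3
    have h4 : x - y ∈ V := h2.2.2 _ (by rw [h3]; exact V.zero_mem)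
    obtain ⟨z, hz, hu⟩ := h1.2 0 V.zero_mem
    have h5 := hu (x - y) ⟨h4, h3⟩
    have h6 := hu 0 ⟨V.zero_mem, by rw [smul_zero, map_zero, sub_zero]⟩
    exact sub_eq_zero.1 (h5.trans h6.symm)
  have hsurj : Function.Surjective (algebraMap ℂ (X →L[ℂ] X) μ - T) := by
    intro x
    obtain ⟨y, hy⟩ := h2.2.1 x
    obtain ⟨z, ⟨hz, hz2⟩, -⟩ := h1.2 _ hy
    refine ⟨y - z, ?_⟩
    rw [map_sub, alg_apply, alg_apply, hz2]
    abel
  rw [spectrum.mem_resolventSet_iff]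
  have hb : Function.Bijective (algebraMap ℂ (X →L[ℂ] X) μ - T) := ⟨hinj, hsurj⟩
  exact ContinuousLinearMap.isUnit_iff_bijective.2 hb

variable [CompleteSpace X]

/-- splitting along the lines `Re z = c`, `c > a` -/
def SplitBeyond (T : X →L[ℂ] X) (a : ℝ) : Prop := ∃ V : ℝ → Submodule ℂ X,
  (∀ c : ℝ, Hyp T (V c)) ∧ (∀ c c' : ℝ, c ≤ c' → V c ≤ V c') ∧
  (∀ c : ℝ, a < c → (∀ w : ℂ, c < w.re → BijOn T (V c) w) ∧ ∀ w : ℂ, w.re < c → BijMod T (V c) w) ∧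
  (∀ c c' : ℝ, a < c → (∃ μ ∈ spectrum ℂ T, c < μ.re ∧ μ.re < c') → V c ≠ V c')

theorem split (T : X →L[ℂ] X) (γ : ℝ → ℂ) (K : NNReal) (hγ : LipschitzWith K γ) (a : ℝ)
    (hspec : ∀ z ∈ spectrum ℂ T, a < z.re → z ∈ γ '' Set.Icc 0 1)
    (hgr : ∃ A : ℕ, ∀ w ∈ γ '' Set.Icc 0 1, a < w.re → ∀ d : ℂ, ‖d‖ = 1 →
      TangentAt (γ '' Set.Icc 0 1) w d → ConeGrowth (fun z => ‖resolvent T z‖) w d A) :
    SplitBeyond T a := by
  have hcut := @cut X _ _ _ T γ K hγ a hspec hgr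
  have hH : ∀ c, Hyp T (VV T c) := fun c => ⟨VV_closed T c, fun Q hQ x hx => VV_hyp T c Q hQ x hx⟩
  have key : ∀ c : ℝ, a < c → (∀ w : ℂ, c < w.re → BijOn T (VV T c) w) ∧
      ∀ w : ℂ, w.re < c → BijMod T (VV T c) w := by
    intro c hac
    constructor
    · intro w hw
      by_cases hws : w ∈ spectrum ℂ T
      · obtain ⟨c₁, hc₁, _, R, _, dR, _, sR, _, eR⟩ := hcut hac.le hw
        exact bijOn_of_ell (hH c) (eR w hws hc₁.2) fun x hx => VV_mono T hc₁.1.le hx R dR sR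
      · exact bijOn_of_res (hH c) (by by_contra h; exact hws h)
    · intro w hw
      by_cases hws : w ∈ spectrum ℂ T
      · obtain ⟨c₁, hc₁, L, _, dL, _, sL, _, eL, _⟩ := hcut (b := max a w.re) (b' := c)
          (le_max_left _ _) (max_lt hac hw)
        exact bijMod_of_ell (hH c) (eL w hws ((le_max_right _ _).trans_lt hc₁.1))
          fun x => VV_mono T hc₁.2.le (left_mem T dL sL x)
      · exact bijMod_of_res (hH c) (by by_contra h; exact hws h)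
  refine ⟨VV T, hH, fun c c' hcc => VV_mono T hcc, key, ?_⟩
  rintro c c' hac ⟨μ, hμ, h1, h2⟩ heq
  have h3 := (key c hac).1 μ h1
  have h4 := (key c' (by linarith)).2 μ h2
  rw [← heq] at h4
  exact not_both hμ h3 h4

end Pool.Agent.V11321.HN
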